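import Mathlib

/-!
# The intrinsic interleaving metric on merge trees with few leaves

A merge tree `(T, f)` is determined, up to isomorphism, by the matrix `m` with `m i i = f(i)` for a
leaf `i`, and `m i j` the height at which the upward rays from the leaves `i ≠ j` meet: `T` is
obtained from the rays `[m i i, ∞)` by gluing the rays `i` and `j` above the height `m i j`.
We use these spaces, with the quotient topology, as representatives of the isomorphism classes.
(Paths of isomorphism classes are paths of representatives, with the same lengths, as the distance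
does not change if one replaces a tree by an isomorphic one.)

Main result: on trees with one leaf the intrinsic interleaving metric is the interleaving
distance, and for every `n ≥ 2` it is not, on the trees with at most `n` leaves. The example: two
trees which differ by a branch of length `2`, with leaf at height `2` in the first tree and at
height `4` in the second tree. The distance is at most `1`, by cutting the branch and growing it
at the other place, with the tree halfway having both branches, of length `1`. A path in the space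
of trees with at most `n` leaves does not have room for both branches: if `S` is at distance `< 1`
from both trees, then it has at least `n + 1` leaves. So on each path there is a point at distance
`≥ 1` from both end points, and the length is at least `2`.
-/

open Set Topology
open scoped NNReal ENNReal

noncomputable section

namespace Pool.Agent.Results.MP_4761b7_gt.FewLeaves

/-- A merge tree (up to isomorphism), given by its finite nonempty set `ι` of leaves, and the matrix
`m`: `m i i` is the height of the leaf `i`, and `m i j` is the height at which the rays which go up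
from the leaves `i ≠ j` merge. Its space is `MergeTree.Pt` and its height function `MergeTree.f`. -/
structure MergeTree where
  ι : Type
  [fin : Finite ι]
  [ne : Nonempty ι]
  m : ι → ι → ℝ
  symm : ∀ i j, m i j = m j i
  ultra : ∀ i j k, m i k ≤ max (m i j) (m j k)
  leaf : ∀ i j, i ≠ j → m i i < m i j

attribute [instance] MergeTree.fin MergeTree.ne

namespace MergeTree

/-- The disjoint union of the rays `[m i i, ∞)`, over the leaves `i`. -/
abbrev Rays (T : MergeTree) : Type := Σ i : T.ι, Ici (T.m i i)

lemma diag_le (T : MergeTree) (i j : T.ι) : T.m i i ≤ T.m i j := by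
  rcases eq_or_ne i j with rfl | h
  · exact le_rfl
  · exact (T.leaf i j h).le

/-- The point of height `s` on the ray `i` is identified with the point of height `s` on the ray
`j` when `m i j ≤ s`. -/
def glue (T : MergeTree) : Setoid T.Rays where
  r p q := (p.2 : ℝ) = q.2 ∧ T.m p.1 q.1 ≤ p.2
  iseqv :=
    { refl := fun p => ⟨rfl, p.2.2⟩
      symm := fun {p q} h => ⟨h.1.symm, by rw [T.symm, ← h.1]; exact h.2⟩
      trans := fun {p q r} h h' => ⟨h.1.trans h'.1,
        (T.ultra _ q.1 _).trans (max_le h.2 (by rw [h.1]; exact h'.2))⟩ }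

/-- The underlying topological space of the merge tree: the rays, glued. -/
def Pt (T : MergeTree) : Type := Quotient T.glue

instance (T : MergeTree) : TopologicalSpace T.Pt := inferInstanceAs (TopologicalSpace (Quotient T.glue))

/-- The point of height `s` on the ray which goes up from the leaf `i`. -/
def pt (T : MergeTree) (i : T.ι) (s : ℝ) (h : T.m i i ≤ s) : T.Pt := Quotient.mk T.glue ⟨i, s, h⟩

/-- The height function `f : T → ℝ`. -/
def f (T : MergeTree) : T.Pt → ℝ := Quotient.lift (fun p : T.Rays => (p.2 : ℝ)) fun _ _ h => h.1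

/-- `i^t(x)`: the point reached from `x` by going up by `t`. -/
def up (T : MergeTree) (t : ℝ≥0) : T.Pt → T.Pt :=
  Quotient.lift
    (fun p : T.Rays => T.pt p.1 (p.2 + t) (le_add_of_le_of_nonneg p.2.2 t.2)) fun p q h =>
      Quotient.sound ⟨by show (p.2 : ℝ) + t = q.2 + t; rw [h.1],
        le_add_of_le_of_nonneg h.2 t.2⟩

/-- There is an `ε`-interleaving of `T` and `T'`. -/
def Interleaved (ε : ℝ≥0) (T T' : MergeTree) : Prop :=
  ∃ (α : C(T.Pt, T'.Pt)) (β : C(T'.Pt, T.Pt)),
    (∀ x, T'.f (α x) = T.f x + ε) ∧ (∀ y, T.f (β y) = T'.f y + ε) ∧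
    (∀ x, β (α x) = T.up (2 * ε) x) ∧ ∀ y, α (β y) = T'.up (2 * ε) y

variable {T T' T'' : MergeTree}

lemma exists_pt (x : T.Pt) : ∃ i s, ∃ h : T.m i i ≤ s, x = T.pt i s h := by
  induction x using Quotient.inductionOn with
  | h p => exact ⟨p.1, p.2.1, p.2.2, rfl⟩

lemma pt_eq_iff {i j : T.ι} {s t : ℝ} {h : T.m i i ≤ s} {h' : T.m j j ≤ t} :
    T.pt i s h = T.pt j t h' ↔ s = t ∧ T.m i j ≤ s := Quotient.eq (r := T.glue)

@[simp] lemma f_pt {i : T.ι} {s : ℝ} {h : T.m i i ≤ s} : T.f (T.pt i s h) = s := rfl

@[simp] lemma up_pt {i : T.ι} {s : ℝ} {h : T.m i i ≤ s} (t : ℝ≥0) :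
    T.up t (T.pt i s h) = T.pt i (s + t) (le_add_of_le_of_nonneg h t.2) := rfl

@[simp] lemma f_up (t : ℝ≥0) (x : T.Pt) : T.f (T.up t x) = T.f x + t := by
  obtain ⟨i, s, h, rfl⟩ := exists_pt x
  rfl

lemma up_up (s t : ℝ≥0) (x : T.Pt) : T.up s (T.up t x) = T.up (s + t) x := by
  obtain ⟨i, r, h, rfl⟩ := exists_pt x
  simp only [up_pt]
  rw [pt_eq_iff]
  refine ⟨by push_cast; ring, (h.trans ?_)⟩
  have := s.2
  have := t.2
  linarith

lemma up_zero (x : T.Pt) : T.up 0 x = x := by
  obtain ⟨i, r, h, rfl⟩ := exists_pt x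
  simp only [up_pt]
  rw [pt_eq_iff]
  refine ⟨by simp, by simpa using h⟩

/-- The ray which goes up from the leaf `i`. -/
def ray (T : MergeTree) (i : T.ι) : Set T.Pt := {x | ∃ s, ∃ h : T.m i i ≤ s, x = T.pt i s h}

lemma pt_mem_ray {i j : T.ι} {s : ℝ} {h : T.m i i ≤ s} : T.pt i s h ∈ T.ray j ↔ T.m i j ≤ s := by
  constructor
  · rintro ⟨t, ht, e⟩
    exact (pt_eq_iff.1 e).2
  · intro h'
    exact ⟨s, (T.diag_le j i).trans (by rwa [T.symm]), pt_eq_iff.2 ⟨rfl, h'⟩⟩

lemma isClosed_ray (i : T.ι) : IsClosed (T.ray i) := by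
  have hq : IsQuotientMap (fun p : T.Rays => (Quotient.mk T.glue p : T.Pt)) :=
    isQuotientMap_quotient_mk'
  refine hq.isClosed_preimage.1 (isClosed_sigma_iff.2 fun j => ?_)
  have : Sigma.mk j ⁻¹' ((fun p : T.Rays => (Quotient.mk T.glue p : T.Pt)) ⁻¹' T.ray i) =
      {s : Ici (T.m j j) | T.m j i ≤ s} := by
    ext s
    exact pt_mem_ray (T := T) (h := s.2)
  rw [this]
  exact isClosed_le continuous_const continuous_subtype_val

lemma continuous_f : Continuous T.f := by
  refine Continuous.quotient_lift ?_ _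
  exact continuous_sigma fun i => continuous_subtype_val

lemma continuous_pt (i : T.ι) : Continuous fun s : Ici (T.m i i) => T.pt i s s.2 := by
  have hq : Continuous (fun p : T.Rays => (Quotient.mk T.glue p : T.Pt)) :=
    continuous_quotient_mk'
  have h2 : Continuous fun s : Ici (T.m i i) => (⟨i, s⟩ : T.Rays) :=
    continuous_sigmaMk (σ := fun i : T.ι => Ici (T.m i i)) (i := i)
  exact hq.comp h2

/-- A continuous map which raises the height by `ε` commutes with the maps `i^t`. -/
lemma map_up {α : T.Pt → T'.Pt} (hα : Continuous α) {ε : ℝ≥0} (hf : ∀ x, T'.f (α x) = T.f x + ε)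
    (t : ℝ≥0) (x : T.Pt) : α (T.up t x) = T'.up t (α x) := by
  obtain ⟨i, s, h, rfl⟩ := exists_pt x
  obtain ⟨j, r, h', e⟩ := exists_pt (α (T.pt i s h))
  have hr : r = s + ε := by
    have := hf (T.pt i s h)
    rw [e] at this
    simpa using this
  -- the path
  let g : ℝ → T'.Pt := fun u => α (T.pt i (s + max u 0) (le_add_of_le_of_nonneg h (le_max_right _ _)))
  have hg : Continuous g := by
    refine hα.comp ?_
    have h1 : Continuous fun u : ℝ =>
        (⟨s + max u 0, le_add_of_le_of_nonneg h (le_max_right _ _)⟩ : Ici (T.m i i)) := by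
      fun_prop
    exact (continuous_pt i).comp h1
  have hgf : ∀ u, 0 ≤ u → T'.f (g u) = r + u := by
    intro u hu
    show T'.f (α _) = _
    rw [hf, f_pt, max_eq_left hu, hr]
    ring
  have key : Icc 0 (t : ℝ) ⊆ g ⁻¹' T'.ray j := by
    have hcl : IsClosed (g ⁻¹' T'.ray j) := (isClosed_ray j).preimage hg
    refine IsClosed.Icc_subset_of_forall_mem_nhdsWithin (hcl.inter isClosed_Icc) ?_ ?_
    · show α (T.pt i (s + max 0 0) _) ∈ T'.ray j
      simp only [max_self, add_zero]
      rw [e]
      exact pt_mem_ray.2 h'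
    · rintro u ⟨⟨v, hv, ev⟩, hu0, hut⟩
      have hv' : v = r + u := by
        have := hgf u hu0
        rw [ev] at this
        simpa using this
      subst hv'
      let N : Set T'.Pt := ⋂ k : {k : T'.ι // r + u < T'.m j k}, (T'.ray k)ᶜ
      have hN : IsOpen N := isOpen_iInter_of_finite fun k => (isClosed_ray _).isOpen_compl
      have hmem : g u ∈ N := by
        rw [ev]
        refine mem_iInter.2 fun k hk => ?_
        exact absurd (pt_mem_ray.1 hk) (not_le.2 k.2)
      have h1 : ∀ᶠ u' in 𝓝 u, g u' ∈ N := hg.continuousAt.eventually (hN.mem_nhds hmem)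
      filter_upwards [nhdsWithin_le_nhds h1, self_mem_nhdsWithin] with u' hu' huu'
      obtain ⟨k, w, hw, ew⟩ := exists_pt (g u')
      have hw' : w = r + u' := by
        have := hgf u' (hu0.trans (le_of_lt huu'))
        rw [ew] at this
        simpa using this
      subst hw'
      show g u' ∈ T'.ray j
      rw [ew]
      apply pt_mem_ray.2
      by_contra hcon
      push Not at hcon
      have hk : r + u < T'.m j k := by
        by_contra hcon2
        push Not at hcon2
        rw [T'.symm] at hcon
        have : u < u' := huu'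
        linarith
      have := mem_iInter.1 hu' ⟨k, hk⟩
      apply this
      rw [ew]
      exact pt_mem_ray.2 hw
  have hgt : g t ∈ T'.ray j := key ⟨t.2, le_rfl⟩
  obtain ⟨v, hv, ev⟩ := hgt
  have hv' : v = r + t := by
    have := hgf t t.2
    rw [ev] at this
    simpa using this
  subst hv'
  rw [e, up_pt, up_pt, ← ev]
  show α _ = α _
  congr 2
  rw [max_eq_left (NNReal.coe_nonneg t)]

/-- Maps given on the leaves. -/
lemma exists_map {g : T.ι → T'.ι} {ε : ℝ≥0} (h : ∀ i j, T'.m (g i) (g j) ≤ T.m i j + ε) :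
    ∃ α : C(T.Pt, T'.Pt), ∀ i s hs, α (T.pt i s hs) =
      T'.pt (g i) (s + ε) ((h i i).trans (by gcongr)) := by
  let a : T.Rays → T'.Pt := fun p =>
    T'.pt (g p.1) (p.2 + ε) ((h p.1 p.1).trans (by have := p.2.2; rw [mem_Ici] at this; gcongr))
  have ha : Continuous a := by
    refine continuous_sigma fun i => ?_
    have h1 : Continuous fun s : Ici (T.m i i) => (⟨s + ε, (h i i).trans
        (by have := s.2; rw [mem_Ici] at this; gcongr)⟩ : Ici (T'.m (g i) (g i))) := by
      fun_prop
    exact (continuous_pt (g i)).comp h1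
  refine ⟨⟨Quotient.lift a ?_, Continuous.quotient_lift ha _⟩, fun i s hs => rfl⟩
  rintro p q ⟨h1, h2⟩
  refine pt_eq_iff.2 ⟨by rw [h1], (h p.1 q.1).trans (by gcongr)⟩

lemma interleaved_of_leaves {g : T.ι → T'.ι} {g' : T'.ι → T.ι} {ε : ℝ≥0}
    (h : ∀ i j, T'.m (g i) (g j) ≤ T.m i j + ε) (h' : ∀ i j, T.m (g' i) (g' j) ≤ T'.m i j + ε)
    (hg : ∀ i, T.m i (g' (g i)) ≤ T.m i i + 2 * ε) (hg' : ∀ i, T'.m i (g (g' i)) ≤ T'.m i i + 2 * ε) :
    Interleaved ε T T' := by
  obtain ⟨α, hα⟩ := exists_map h
  obtain ⟨β, hβ⟩ := exists_map h'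
  refine ⟨α, β, fun x => ?_, fun y => ?_, fun x => ?_, fun y => ?_⟩
  · obtain ⟨i, s, hs, rfl⟩ := exists_pt x
    rw [hα]
    rfl
  · obtain ⟨i, s, hs, rfl⟩ := exists_pt y
    rw [hβ]
    rfl
  · obtain ⟨i, s, hs, rfl⟩ := exists_pt x
    rw [hα, hβ, up_pt, pt_eq_iff]
    refine ⟨by push_cast; ring, ?_⟩
    rw [T.symm]
    have := hg i
    linarith
  · obtain ⟨i, s, hs, rfl⟩ := exists_pt y
    rw [hβ, hα, up_pt, pt_eq_iff]
    refine ⟨by push_cast; ring, ?_⟩
    rw [T'.symm]
    have := hg' i
    linarith

lemma Interleaved.refl (T : MergeTree) : Interleaved 0 T T :=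
  ⟨ContinuousMap.id _, ContinuousMap.id _, fun x => by simp, fun x => by simp,
    fun x => by simp [up_zero], fun x => by simp [up_zero]⟩

lemma Interleaved.symm {ε : ℝ≥0} (h : Interleaved ε T T') : Interleaved ε T' T := by
  obtain ⟨α, β, h1, h2, h3, h4⟩ := h
  exact ⟨β, α, h2, h1, h4, h3⟩

lemma Interleaved.trans {ε ε' : ℝ≥0} (h : Interleaved ε T T') (h' : Interleaved ε' T' T'') :
    Interleaved (ε + ε') T T'' := by
  obtain ⟨α, β, h1, h2, h3, h4⟩ := h
  obtain ⟨α', β', h1', h2', h3', h4'⟩ := h'
  refine ⟨α'.comp α, β.comp β', fun x => ?_, fun y => ?_, fun x => ?_, fun y => ?_⟩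
  · simp only [ContinuousMap.comp_apply, h1', h1]
    push_cast
    ring
  · simp only [ContinuousMap.comp_apply, h2', h2]
    push_cast
    ring
  · simp only [ContinuousMap.comp_apply]
    rw [h3', map_up β.continuous h2, h3, up_up]
    congr 1
    ring
  · simp only [ContinuousMap.comp_apply]
    rw [h4, map_up α'.continuous h1', h4', up_up]
    congr 1
    ring

/-- The interleaving distance `d_I`: the infimum of the `ε ≥ 0` for which there is an
`ε`-interleaving. -/
instance : PseudoEMetricSpace MergeTree where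
  edist T T' := ⨅ (ε : ℝ≥0) (_ : Interleaved ε T T'), (ε : ℝ≥0∞)
  edist_self T := le_antisymm (iInf₂_le_of_le 0 (Interleaved.refl T) le_rfl) bot_le
  edist_comm T T' := by
    refine iInf_congr fun ε => iInf_congr_Prop ⟨fun h => h.symm, fun h => h.symm⟩ fun _ => rfl
  edist_triangle T T' T'' := by
    simp_rw [ENNReal.iInf_add, ENNReal.add_iInf]
    refine le_iInf fun ε => le_iInf fun h => le_iInf fun ε' => le_iInf fun h' => ?_
    exact iInf₂_le_of_le (ε + ε') (h.trans h') (by simp)

/-- The number of leaves. -/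
def leaves (T : MergeTree) : ℕ := Nat.card T.ι

end MergeTree

open MergeTree

/-- The merge trees with at most `n` leaves. -/
def MT (n : ℕ) : Set MergeTree := {T | T.leaves ≤ n}

/-- The intrinsic metric on `MT n`: the infimum of the lengths (for the interleaving distance) of
the continuous paths in `MT n`. -/
def intrinsic (n : ℕ) (T T' : MergeTree) : ℝ≥0∞ :=
  ⨅ (γ : unitInterval → MergeTree) (_ : Continuous γ ∧ γ 0 = T ∧ γ 1 = T' ∧ ∀ t, γ t ∈ MT n),
    eVariationOn γ univ

/-! ### Lower bound for the number of leaves -/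

/-- If no two of the points `P j` are comparable, then there are at least as many leaves. -/
lemma card_le_leaves {S : MergeTree} {J : Type} [Finite J] (P : J → S.Pt)
    (h : ∀ j j', j ≠ j' → ∀ t, S.up t (P j) ≠ P j') : Nat.card J ≤ S.leaves := by
  choose i s hs e using fun j => exists_pt (P j)
  refine Nat.card_le_card_of_injective i fun j j' hij => ?_
  by_contra hne
  have key : ∀ j j', j ≠ j' → i j = i j' → s j ≤ s j' → False := by
    intro j j' hne hij hss
    apply h j j' hne ⟨s j' - s j, sub_nonneg.2 hss⟩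
    rw [e j, e j', up_pt, pt_eq_iff]
    refine ⟨?_, ?_⟩
    · show s j + (s j' - s j) = _
      ring
    · show _ ≤ s j + (s j' - s j)
      rw [← hij]
      linarith [hs j]
  rcases le_total (s j) (s j') with h1 | h1
  · exact key j j' hne hij h1
  · exact key j' j (Ne.symm hne) hij.symm h1

/-! ### The examples -/

/-- The matrix of the tree with leaves `some i`, `i ≤ k`, of height `0`, and a leaf `none` of
height `a`; the leaves `some i` merge at `10`, and `none` merges with `some 0` at `a + 2`. -/
def mat (k : ℕ) (a : ℝ) : Option (Fin (k + 1)) → Option (Fin (k + 1)) → ℝ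
  | none, none => a
  | none, some i => if i = 0 then a + 2 else 10
  | some i, none => if i = 0 then a + 2 else 10
  | some i, some j => if i = j then 0 else 10

/-- The tree with this matrix. -/
def tree (k : ℕ) (a : Icc (2 : ℝ) 4) : MergeTree where
  ι := Option (Fin (k + 1))
  m := mat k a
  symm i j := by
    rcases i with _ | i <;> rcases j with _ | j <;> simp [mat, eq_comm]
  ultra i j l := by
    obtain ⟨a, ha2, ha4⟩ := a
    rcases i with _ | i <;> rcases j with _ | j <;> rcases l with _ | l <;>
      simp only [mat, le_max_iff] <;> (try split_ifs) <;>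
      first
        | (left; linarith)
        | (right; linarith)
        | (exfalso; simp_all)
  leaf i j h := by
    obtain ⟨a, ha2, ha4⟩ := a
    rcases i with _ | i <;> rcases j with _ | j <;> simp only [mat] <;> (try split_ifs) <;>
      first
        | linarith
        | (exfalso; simp_all)

lemma leaves_tree (k : ℕ) (a : Icc (2 : ℝ) 4) : (tree k a).leaves = k + 2 := by
  show Nat.card (Option (Fin (k + 1))) = _
  simp

/-- Moving the leaf `none`. -/
lemma interleaved_move (k : ℕ) (a b : Icc (2 : ℝ) 4) :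
    Interleaved ⟨|(a : ℝ) - b|, abs_nonneg _⟩ (tree k a) (tree k b) := by
  have h1 : ∀ i j, mat k b i j ≤ mat k a i j + |(a : ℝ) - b| := by
    intro i j
    have e1 := abs_nonneg ((a : ℝ) - b)
    have e2 := neg_abs_le ((a : ℝ) - b)
    rcases i with _ | i <;> rcases j with _ | j <;> simp only [mat] <;> (try split_ifs) <;> linarith
  have h2 : ∀ i j, mat k a i j ≤ mat k b i j + |(a : ℝ) - b| := by
    intro i j
    have e1 := abs_nonneg ((a : ℝ) - b)
    have e2 := le_abs_self ((a : ℝ) - b)
    rcases i with _ | i <;> rcases j with _ | j <;> simp only [mat] <;> (try split_ifs) <;> linarith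
  refine interleaved_of_leaves (T := tree k a) (T' := tree k b) (g := id) (g' := id) h1 h2 ?_ ?_
  · intro i
    have e1 := abs_nonneg ((a : ℝ) - b)
    show mat k a i i ≤ mat k a i i + 2 * |(a : ℝ) - b|
    linarith
  · intro i
    have e1 := abs_nonneg ((a : ℝ) - b)
    show mat k b i i ≤ mat k b i i + 2 * |(a : ℝ) - b|
    linarith

/-- Removing the leaf `none`, and growing it again. -/
lemma interleaved_one (k : ℕ) (a b : Icc (2 : ℝ) 4) : Interleaved 1 (tree k a) (tree k b) := by
  let g : Option (Fin (k + 1)) → Option (Fin (k + 1)) := fun i => some (i.getD 0)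
  have h1 : ∀ (a b : Icc (2 : ℝ) 4) i j, mat k b (g i) (g j) ≤ mat k a i j + 1 := by
    intro a b i j
    obtain ⟨a, ha2, ha4⟩ := a
    rcases i with _ | i <;> rcases j with _ | j <;> simp only [mat, g, Option.getD] <;>
      (try split_ifs) <;>
      first
        | linarith
        | (exfalso; simp_all)
  have h2 : ∀ (a : Icc (2 : ℝ) 4) i, mat k a i (g (g i)) ≤ mat k a i i + 2 * 1 := by
    intro a i
    rcases i with _ | i <;> simp only [mat, g, Option.getD] <;> (try split_ifs) <;>
      linarith
  exact interleaved_of_leaves (T := tree k a) (T' := tree k b) (g := g) (g' := g)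
    (fun i j => h1 a b i j) (fun i j => h1 b a i j) (fun i => h2 a i) (fun i => h2 b i)

/-- The end points of `[2, 4]`. -/
def lo : Icc (2 : ℝ) 4 := ⟨2, by norm_num⟩

/-- The end points of `[2, 4]`. -/
def hi : Icc (2 : ℝ) 4 := ⟨4, by norm_num⟩

lemma m_lo {k : ℕ} {i j : Option (Fin (k + 1))} : (tree k lo).m i j = mat k 2 i j := rfl
lemma m_hi {k : ℕ} {i j : Option (Fin (k + 1))} : (tree k hi).m i j = mat k 4 i j := rfl

/-- A tree near `tree k 2` and `tree k 4` has at least `k + 3` leaves. -/
lemma leaves_of_near {k : ℕ} {S : MergeTree} {ε ε' : ℝ≥0} (hε : ε < 1) (hε' : ε' < 1)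
    (h : Interleaved ε (tree k lo) S) (h' : Interleaved ε' S (tree k hi)) :
    k + 3 ≤ S.leaves := by
  obtain ⟨α, β, h1, h2, h3, -⟩ := h
  obtain ⟨β', α', h2', h1', -, h3'⟩ := h'
  have hε1 : (ε : ℝ) < 1 := hε
  have hε1' : (ε' : ℝ) < 1 := hε'
  have hε0 := ε.2
  have hε0' := ε'.2
  -- the leaves
  let y : Fin (k + 1) → (tree k lo).Pt := fun i =>
    (tree k lo).pt (some i) 0 (m_lo.trans_le (by simp [mat]))
  let z : (tree k lo).Pt := (tree k lo).pt none 2 (m_lo.trans_le (by simp [mat]))
  let w : (tree k hi).Pt := (tree k hi).pt none 4 (m_hi.trans_le (by simp [mat]))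
  let P : Option (Option (Fin (k + 1))) → S.Pt
    | none => α' w
    | some none => α z
    | some (some i) => α (y i)
  have hfy : ∀ i, S.f (α (y i)) = ε := by
    intro i
    rw [h1]
    show 0 + (ε : ℝ) = ε
    ring
  have hfz : S.f (α z) = 2 + ε := h1 z
  have hfw : S.f (α' w) = 4 + ε' := h1' w
  -- a point of height less than `4` goes to the trunk
  have key : ∀ x : S.Pt, S.f x + ε' < 4 → ∀ t, S.up t x ≠ α' w := by
    intro x hx t ht
    have e1 : β' (S.up t x) = (tree k hi).up (2 * ε') w := by rw [ht, h3']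
    rw [map_up β'.continuous h2'] at e1
    obtain ⟨i, s, hs, es⟩ := exists_pt (β' x)
    have hs' : s = S.f x + ε' := by
      have := h2' x
      rw [es] at this
      simpa using this
    rw [es, up_pt, up_pt, pt_eq_iff] at e1
    obtain ⟨e2, e3⟩ := e1
    rcases i with _ | i
    · have : (4 : ℝ) ≤ s := hs
      linarith
    · have h4 : mat k 4 (some i) none ≤ s + t := e3
      have h5 : (6 : ℝ) ≤ mat k 4 (some i) none := by
        simp only [mat]
        split_ifs <;> norm_num
      have h6 : s + (t : ℝ) = 4 + 2 * ε' := by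
        rw [e2]
        push_cast
        ring
      linarith
  have hcard : Nat.card (Option (Option (Fin (k + 1)))) = k + 3 := by simp
  rw [← hcard]
  refine card_le_leaves P fun j j' hne t ht => ?_
  have hf : S.f (P j') = S.f (P j) + t := by rw [← ht, f_up]
  have ht0 := t.2
  rcases j with _ | _ | j <;> rcases j' with _ | _ | j'
  · exact hne rfl
  · change S.f (α z) = S.f (α' w) + t at hf
    rw [hfz, hfw] at hf
    linarith
  · change S.f (α (y j')) = S.f (α' w) + t at hf
    rw [hfy, hfw] at hf
    linarith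
  · exact key (α z) (by rw [hfz]; linarith) t ht
  · exact hne rfl
  · change S.f (α (y j')) = S.f (α z) + t at hf
    rw [hfz, hfy] at hf
    linarith
  · exact key (α (y j)) (by rw [hfy]; linarith) t ht
  · change S.f (α z) = S.f (α (y j)) + t at hf
    rw [hfz, hfy] at hf
    have e1 : β (S.up t (α (y j))) = (tree k lo).up (2 * ε) z := by rw [← h3]; exact congrArg β ht
    rw [map_up β.continuous h2, h3] at e1
    have e2 : mat k 2 (some j) none ≤ 0 + ((2 * ε : ℝ≥0) : ℝ) + t := (pt_eq_iff.1 e1).2
    have h5 : (4 : ℝ) ≤ mat k 2 (some j) none := by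
      simp only [mat]
      split_ifs <;> norm_num
    push_cast at e2
    linarith
  · change S.f (α (y j')) = S.f (α (y j)) + t at hf
    rw [hfy, hfy] at hf
    have e1 : β (S.up t (α (y j))) = (tree k lo).up (2 * ε) (y j') := by rw [← h3]; exact congrArg β ht
    rw [map_up β.continuous h2, h3] at e1
    have e2 : mat k 2 (some j) (some j') ≤ 0 + ((2 * ε : ℝ≥0) : ℝ) + t := (pt_eq_iff.1 e1).2
    have hjj : j ≠ j' := fun h => hne (by rw [h])
    have h5 : mat k 2 (some j) (some j') = 10 := by simp [mat, hjj]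
    rw [h5] at e2
    push_cast at e2
    linarith

lemma edist_le_of_interleaved {T T' : MergeTree} {ε : ℝ≥0} (h : Interleaved ε T T') :
    edist T T' ≤ ε := iInf₂_le ε h

lemma exists_interleaved_of_edist_lt {T T' : MergeTree} {c : ℝ≥0∞} (h : edist T T' < c) :
    ∃ ε : ℝ≥0, (ε : ℝ≥0∞) < c ∧ Interleaved ε T T' := by
  change (⨅ (ε : ℝ≥0) (_ : Interleaved ε T T'), (ε : ℝ≥0∞)) < c at h
  obtain ⟨ε, h1⟩ := iInf_lt_iff.1 h
  obtain ⟨h2, h3⟩ := iInf_lt_iff.1 h1
  exact ⟨ε, h3, h2⟩

/-- Lower bound for the length of a path. -/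
lemma two_le_length {k : ℕ} {γ : unitInterval → MergeTree} (hγ : Continuous γ)
    (h0 : γ 0 = tree k lo) (h1 : γ 1 = tree k hi) (hn : ∀ t, γ t ∈ MT (k + 2)) :
    2 ≤ eVariationOn γ univ := by
  let A : Set unitInterval := {t | 1 ≤ edist (γ 0) (γ t)}
  let B : Set unitInterval := {t | 1 ≤ edist (γ t) (γ 1)}
  have hA : IsClosed A := isClosed_le continuous_const (continuous_const.edist hγ)
  have hB : IsClosed B := isClosed_le continuous_const (hγ.edist continuous_const)
  have hcover : ∀ t, t ∈ A ∨ t ∈ B := by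
    intro t
    by_contra hcon
    push Not at hcon
    obtain ⟨ha, hb⟩ := hcon
    have ha' : edist (tree k lo) (γ t) < 1 := by
      rw [← h0]
      exact not_le.1 ha
    have hb' : edist (γ t) (tree k hi) < 1 := by
      rw [← h1]
      exact not_le.1 hb
    obtain ⟨ε, hε, hi⟩ := exists_interleaved_of_edist_lt ha'
    obtain ⟨ε', hε', hi'⟩ := exists_interleaved_of_edist_lt hb'
    have h3 := leaves_of_near (by exact_mod_cast hε) (by exact_mod_cast hε') hi hi'
    have h4 : (γ t).leaves ≤ k + 2 := hn t
    omega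
  have h0B : (0 : unitInterval) ∈ B := by
    refine (hcover 0).resolve_left fun h => ?_
    have h' : 1 ≤ edist (γ 0) (γ 0) := h
    rw [edist_self] at h'
    exact absurd h' (by norm_num)
  have h1A : (1 : unitInterval) ∈ A := by
    refine (hcover 1).resolve_right fun h => ?_
    have h' : 1 ≤ edist (γ 1) (γ 1) := h
    rw [edist_self] at h'
    exact absurd h' (by norm_num)
  obtain ⟨t, -, htA, htB⟩ := isPreconnected_closed_iff.1 (isPreconnected_univ (α := unitInterval))
    A B hA hB (fun t _ => hcover t) ⟨1, trivial, h1A⟩ ⟨0, trivial, h0B⟩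
  have e1 : edist (γ 0) (γ t) ≤ eVariationOn γ (Iic t) :=
    eVariationOn.edist_le γ (mem_Iic.2 t.2.1) (mem_Iic.2 le_rfl)
  have e2 : edist (γ t) (γ 1) ≤ eVariationOn γ (Ici t) :=
    eVariationOn.edist_le γ (mem_Ici.2 le_rfl) (mem_Ici.2 t.2.2)
  have e3 := eVariationOn.add_le_union γ (s := Iic t) (t := Ici t)
    fun x hx y hy => (mem_Iic.1 hx).trans (mem_Ici.1 hy)
  calc (2 : ℝ≥0∞) = 1 + 1 := by norm_num
    _ ≤ eVariationOn γ (Iic t) + eVariationOn γ (Ici t) :=
      add_le_add (le_trans htA e1) (le_trans htB e2)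
    _ ≤ eVariationOn γ (Iic t ∪ Ici t) := e3
    _ ≤ eVariationOn γ univ := eVariationOn.mono γ (subset_univ _)

/-- Lipschitz paths. -/
lemma length_le {γ : unitInterval → MergeTree} {L : ℝ} (hL : 0 ≤ L)
    (h : ∀ s t, edist (γ s) (γ t) ≤ ENNReal.ofReal (L * |(s : ℝ) - t|)) :
    Continuous γ ∧ eVariationOn γ univ ≤ ENNReal.ofReal L := by
  constructor
  · have : LipschitzWith ⟨L, hL⟩ γ := by
      intro s t
      refine (h s t).trans ?_
      rw [ENNReal.ofReal_mul hL, Subtype.edist_eq, edist_dist, Real.dist_eq]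
      gcongr
      rw [ENNReal.ofReal, Real.toNNReal_of_nonneg hL]
      exact le_rfl
    exact this.continuous
  · let φ : unitInterval → ℝ := fun t => L * t
    have h1 : eVariationOn γ univ ≤ eVariationOn φ univ := by
      refine iSup_mono fun p => Finset.sum_le_sum fun i _ => (h _ _).trans ?_
      rw [edist_dist, Real.dist_eq]
      show _ ≤ ENNReal.ofReal |L * _ - L * _|
      rw [← mul_sub, abs_mul, abs_of_nonneg hL]
    have h2 : MonotoneOn φ univ := fun s _ t _ hst => mul_le_mul_of_nonneg_left hst hL
    have h3 := (h2.eVariationOn_eq (mem_univ 0) (mem_univ 1)).le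
    have h4 : (univ : Set unitInterval) ∩ Icc 0 1 = univ := by
      ext t
      exact ⟨fun _ => trivial, fun _ => ⟨trivial, t.2.1, t.2.2⟩⟩
    rw [h4] at h3
    refine h1.trans (h3.trans (ENNReal.ofReal_le_ofReal ?_))
    simp [φ]

/-! ### One leaf -/

/-- The height of a leaf. -/
def low (T : MergeTree) : ℝ := T.m (Classical.arbitrary _) (Classical.arbitrary _)

lemma m_eq_low {T : MergeTree} (hT : T ∈ MT 1) (i j : T.ι) : T.m i j = low T := by
  have : Subsingleton T.ι := Finite.card_le_one_iff_subsingleton.1 hT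
  rw [low]
  congr 1 <;> exact Subsingleton.elim _ _

lemma edist_one {T T' : MergeTree} (hT : T ∈ MT 1) (hT' : T' ∈ MT 1) :
    edist T T' = ENNReal.ofReal |low T - low T'| := by
  refine le_antisymm ?_ ?_
  · have h1 := neg_abs_le (low T - low T')
    have h2 := le_abs_self (low T - low T')
    have h3 := abs_nonneg (low T - low T')
    have h : Interleaved ⟨|low T - low T'|, abs_nonneg _⟩ T T' := by
      refine interleaved_of_leaves (g := fun _ => Classical.arbitrary _)
        (g' := fun _ => Classical.arbitrary _) (fun i j => ?_) (fun i j => ?_) (fun i => ?_)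
        (fun i => ?_)
      · rw [m_eq_low hT, m_eq_low hT']
        show low T' ≤ low T + |low T - low T'|
        linarith
      · rw [m_eq_low hT, m_eq_low hT']
        show low T ≤ low T' + |low T - low T'|
        linarith
      · rw [m_eq_low hT, m_eq_low hT]
        show low T ≤ low T + 2 * |low T - low T'|
        linarith
      · rw [m_eq_low hT', m_eq_low hT']
        show low T' ≤ low T' + 2 * |low T - low T'|
        linarith
    refine (edist_le_of_interleaved h).trans ?_
    rw [ENNReal.ofReal, Real.toNNReal_of_nonneg h3]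
    exact le_rfl
  · refine le_iInf₂ fun ε h => ?_
    obtain ⟨α, β, h1, h2, -, -⟩ := h
    have hle : ∀ {S : MergeTree} (_ : S ∈ MT 1) (x : S.Pt), low S ≤ S.f x := by
      intro S hS x
      obtain ⟨i, s, hs, rfl⟩ := exists_pt x
      rwa [m_eq_low hS] at hs
    have e1 := h1 (T.pt (Classical.arbitrary _) (low T) le_rfl)
    have e2 := h2 (T'.pt (Classical.arbitrary _) (low T') le_rfl)
    rw [f_pt] at e1 e2
    have e3 := hle hT' (α (T.pt (Classical.arbitrary _) (low T) le_rfl))
    have e4 := hle hT (β (T'.pt (Classical.arbitrary _) (low T') le_rfl))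
    rw [← ENNReal.ofReal_coe_nnreal]
    refine ENNReal.ofReal_le_ofReal (abs_le.2 ⟨?_, ?_⟩) <;> linarith

/-- The tree with one leaf, of height `h`. -/
def rayTree (h : ℝ) : MergeTree where
  ι := Unit
  m := fun _ _ => h
  symm _ _ := rfl
  ultra _ _ _ := (max_self h).ge
  leaf _ _ h := absurd rfl h

lemma rayTree_mem (h : ℝ) : rayTree h ∈ MT 1 := by
  show Nat.card Unit ≤ 1
  simp

/-- A path between trees with one leaf. -/
def path (T T' : MergeTree) (t : unitInterval) : MergeTree :=
  if t = 0 then T else if t = 1 then T' else rayTree (low T + t * (low T' - low T))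

lemma path_mem {T T' : MergeTree} (hT : T ∈ MT 1) (hT' : T' ∈ MT 1) (t : unitInterval) :
    path T T' t ∈ MT 1 := by
  rw [path]
  split_ifs
  · exact hT
  · exact hT'
  · exact rayTree_mem _

lemma low_path (T T' : MergeTree) (t : unitInterval) :
    low (path T T' t) = low T + t * (low T' - low T) := by
  rw [path]
  split_ifs with h h
  · rw [h]
    simp
  · rw [h]
    simp
  · rfl

lemma intrinsic_one {T T' : MergeTree} (hT : T ∈ MT 1) (hT' : T' ∈ MT 1) :
    intrinsic 1 T T' = edist T T' := by
  refine le_antisymm ?_ ?_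
  · obtain ⟨h1, h2⟩ := length_le (γ := path T T') (abs_nonneg (low T - low T')) (by
      intro s t
      rw [edist_one (path_mem hT hT' s) (path_mem hT hT' t), low_path, low_path]
      refine ENNReal.ofReal_le_ofReal ?_
      rw [← abs_mul, ← abs_neg]
      exact le_of_eq (by congr 1; ring))
    rw [edist_one hT hT']
    refine iInf₂_le_of_le (path T T') ⟨h1, ?_, ?_, path_mem hT hT'⟩ h2
    · rw [path, if_pos rfl]
    · rw [path, if_neg one_ne_zero, if_pos rfl]
  · refine le_iInf₂ fun γ h => ?_
    obtain ⟨-, h0, h1, -⟩ := h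
    rw [← h0, ← h1]
    exact eVariationOn.edist_le γ (mem_univ _) (mem_univ _)

/-- **Q1 and Q2.** The intrinsic metric is the interleaving distance on the trees with at most one
leaf. For every `n ≥ 2`, it is strictly greater for some pair of trees with at most `n` leaves:
it is `2`, and the interleaving distance is at most `1`. -/
theorem result :
    (∀ T ∈ MT 1, ∀ T' ∈ MT 1, intrinsic 1 T T' = edist T T') ∧
    ∀ n, 2 ≤ n → ∃ T ∈ MT n, ∃ T' ∈ MT n, edist T T' ≤ 1 ∧ intrinsic n T T' = 2 := by
  refine ⟨fun T hT T' hT' => intrinsic_one hT hT', fun n hn => ?_⟩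
  obtain ⟨k, rfl⟩ := Nat.exists_eq_add_of_le' hn
  refine ⟨tree k lo, (leaves_tree k lo).le, tree k hi, (leaves_tree k hi).le, ?_, ?_⟩
  · exact (edist_le_of_interleaved (interleaved_one k lo hi)).trans (by simp)
  · refine le_antisymm ?_ ?_
    · let g : unitInterval → Icc (2 : ℝ) 4 := fun t =>
        ⟨2 + 2 * t, by have := t.2.1; linarith, by have := t.2.2; linarith⟩
      obtain ⟨h1, h2⟩ := length_le (γ := fun t => tree k (g t)) (L := 2) (by norm_num) (by
        intro s t
        refine (edist_le_of_interleaved (interleaved_move k (g s) (g t))).trans ?_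
        rw [← ENNReal.ofReal_coe_nnreal]
        refine ENNReal.ofReal_le_ofReal ?_
        show |(2 + 2 * (s : ℝ)) - (2 + 2 * t)| ≤ _
        have : (2 + 2 * (s : ℝ)) - (2 + 2 * t) = 2 * (s - t) := by ring
        rw [this, abs_mul]
        simp)
      refine iInf₂_le_of_le (fun t => tree k (g t)) ⟨h1, ?_, ?_, fun t => (leaves_tree k _).le⟩
        (h2.trans (by simp))
      · show tree k (g 0) = _
        congr 1
        ext
        show (2 : ℝ) + 2 * (0 : ℝ) = 2
        norm_num
      · show tree k (g 1) = _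
        congr 1
        ext
        show (2 : ℝ) + 2 * (1 : ℝ) = 4
        norm_num
    · exact le_iInf₂ fun γ h => two_le_length h.1 h.2.1 h.2.2.1 h.2.2.2

end Pool.Agent.Results.MP_4761b7_gt.FewLeaves
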